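import Pool.Agent.Helper50.FT.Loc0

/-!
# MP_39e2b7_an, packet FT-LOC: local holomorphic functions near a real world line
-/

set_option autoImplicit false

namespace Pool.Agent.Helper50.FT

open Complex Set Filter Topology Metric Pool.Agent.Helper76.FT

/-- The facts about the system that are used. -/
structure Hyp (S : Sys) (Y x : ℝ) : Prop where
  ok : S.Ok
  hY : Y ∈ Icc S.a S.b
  nbo : ∀ t r : ℝ, IsOpen (S.Nb t r)
  memA : ∀ n : ℤ, (((S.orb Y x (n + 1) : ℝ) : ℂ), ((S.vel Y x n : ℝ) : ℂ)) ∈ S.Nb 1 S.r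
  memB : ∀ n : ℤ, (((S.orb Y x n : ℝ) : ℂ), ((S.vel Y x n : ℝ) : ℂ)) ∈ S.Nb 0 S.r
  orb1 : ∀ n : ℤ, S.orb Y x (n + 1) = S.orb Y x n + S.vel Y x n
  vel1 : ∀ n : ℤ, S.V Y (S.orb Y x (n + 1)) 1 = S.vel Y x n
  shift : ∀ n k : ℤ, S.orb Y (S.orb Y x n) k = S.orb Y x (n + k)

theorem mkHyp {S : Sys} (hG : GReg) (hS : S.Ok) {Y : ℝ} (hY : Y ∈ Icc S.a S.b) (x : ℝ) :
    Hyp S Y x := by
  obtain ⟨g1, g2, -, -, -, g6, -, -, -, -, -, g12, -⟩ := hG S hS
  refine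
    { ok := hS
      hY := hY
      nbo := g6
      memA := ?_
      memB := ?_
      orb1 := fun n => (g12 Y hY x n).2.2.1
      vel1 := fun n => (g12 Y hY x n).2.2.2.1
      shift := fun n k => (g12 Y hY x n).2.2.2.2.1 k }
  · intro n
    refine ⟨(S.orb Y x (n + 1), S.vel Y x n), ?_, by simpa using hS.hr, by simpa using hS.hr⟩
    rw [← (g12 Y hY x n).2.2.2.1]
    exact g2 1 (by simp) _ Y hY
  · intro n
    refine ⟨(S.orb Y x n, S.vel Y x n), ?_, by simpa using hS.hr, by simpa using hS.hr⟩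
    exact g2 0 (by simp) _ Y hY

section

variable {S : Sys} {Y x : ℝ} (h : Hyp S Y x)

include h

theorem FF_dat (n : ℤ) : FF S (dat S Y x n) = dat S Y x (n + 1) := by
  have e : ((S.orb Y x n : ℝ) : ℂ) + ((S.vel Y x n : ℝ) : ℂ) = ((S.orb Y x (n + 1) : ℝ) : ℂ) := by
    rw [h.orb1]
    push_cast
    rfl
  apply Prod.ext
  · exact e
  · show S.K (((S.orb Y x n : ℝ) : ℂ) + ((S.vel Y x n : ℝ) : ℂ)) ((S.vel Y x n : ℝ) : ℂ) =
      ((S.vel Y x (n + 1) : ℝ) : ℂ)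
    rw [e]
    have h1 := h.ok.KV Y h.hY (S.orb Y x (n + 1))
    rw [h.vel1] at h1
    exact h1

theorem FFi_FF {z : ℂ × ℂ} (hz : (z.1 + z.2, z.2) ∈ S.Nb 1 S.r) : FFi S (FF S z) = z := by
  have h1 : S.Ki (z.1 + z.2) (S.K (z.1 + z.2) z.2) = z.2 := h.ok.KiK _ hz
  apply Prod.ext
  · show (z.1 + z.2) - S.Ki (z.1 + z.2) (S.K (z.1 + z.2) z.2) = z.1
    rw [h1]
    ring
  · exact h1

theorem FF_FFi {z : ℂ × ℂ} (hz : z ∈ S.Nb 0 S.r) : FF S (FFi S z) = z := by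
  have h1 : S.K z.1 (S.Ki z.1 z.2) = z.2 := h.ok.KKi _ hz
  have e : (z.1 - S.Ki z.1 z.2) + S.Ki z.1 z.2 = z.1 := by ring
  apply Prod.ext
  · exact e
  · show S.K ((z.1 - S.Ki z.1 z.2) + S.Ki z.1 z.2) (S.Ki z.1 z.2) = z.2
    rw [e, h1]

theorem contA (n : ℤ) : ∀ᶠ z in 𝓝 (dat S Y x n), (z.1 + z.2, z.2) ∈ S.Nb 1 S.r := by
  have hc : Continuous fun z : ℂ × ℂ => ((z.1 + z.2, z.2) : ℂ × ℂ) := by fun_prop
  have h1 : ((dat S Y x n).1 + (dat S Y x n).2, (dat S Y x n).2) ∈ S.Nb 1 S.r := by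
    have h2 := h.memA n
    rw [h.orb1] at h2
    push_cast at h2
    exact h2
  exact (hc.continuousAt (x := dat S Y x n)).eventually ((h.nbo 1 S.r).mem_nhds h1)

theorem contB (n : ℤ) : ∀ᶠ z in 𝓝 (dat S Y x n), z ∈ S.Nb 0 S.r :=
  (h.nbo 0 S.r).mem_nhds (h.memB n)

theorem FFi_dat (n : ℤ) : FFi S (dat S Y x (n + 1)) = dat S Y x n := by
  rw [← FF_dat h n]
  exact FFi_FF h (contA h n).self_of_nhds

omit h in
/-- The linear part of the straight motion. -/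
theorem hasStrictA (u : ℂ × ℂ) : HasStrictFDerivAt (fun z : ℂ × ℂ => ((z.1 + z.2, z.2) : ℂ × ℂ))
    ((ContinuousLinearMap.fst ℂ ℂ ℂ + ContinuousLinearMap.snd ℂ ℂ ℂ).prod
      (ContinuousLinearMap.snd ℂ ℂ ℂ)) u :=
  (((ContinuousLinearMap.fst ℂ ℂ ℂ + ContinuousLinearMap.snd ℂ ℂ ℂ).prod
      (ContinuousLinearMap.snd ℂ ℂ ℂ))).hasStrictFDerivAt

/-- The real field as a complex one. -/
noncomputable def cf (ξ η : ℤ → ℝ) (n : ℤ) : ℂ × ℂ := ((ξ n : ℂ), (η n : ℂ))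

theorem FF_strict (n : ℤ) : ∃ P : ℂ × ℂ →L[ℂ] ℂ × ℂ, HasStrictFDerivAt (FF S) P (dat S Y x n) ∧
    ∀ ξ η : ℤ → ℝ, S.Jac Y x ξ η → P (cf ξ η n) = cf ξ η (n + 1) := by
  set u : ℂ × ℂ := (((S.orb Y x (n + 1) : ℝ) : ℂ), ((S.vel Y x n : ℝ) : ℂ)) with hu
  have hK := hasStrict S.K (S.Nb 1 S.r) (h.nbo 1 S.r) h.ok.Khol u (h.memA n)
  have hA := hasStrictA (dat S Y x n)
  have hAu : (fun z : ℂ × ℂ => ((z.1 + z.2, z.2) : ℂ × ℂ)) (dat S Y x n) = u := by
    apply Prod.ext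
    · show ((S.orb Y x n : ℝ) : ℂ) + ((S.vel Y x n : ℝ) : ℂ) = ((S.orb Y x (n + 1) : ℝ) : ℂ)
      rw [h.orb1]
      push_cast
      rfl
    · rfl
  rw [← hAu] at hK
  have h2 := hK.comp (dat S Y x n) hA
  have h1 : HasStrictFDerivAt (fun z : ℂ × ℂ => z.1 + z.2)
      (ContinuousLinearMap.fst ℂ ℂ ℂ + ContinuousLinearMap.snd ℂ ℂ ℂ) (dat S Y x n) :=
    (ContinuousLinearMap.fst ℂ ℂ ℂ + ContinuousLinearMap.snd ℂ ℂ ℂ).hasStrictFDerivAt
  have h3 := h1.prodMk h2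
  refine ⟨_, h3, ?_⟩
  intro ξ η hJ
  rw [hAu]
  have e1 : ((ξ n : ℝ) : ℂ) + ((η n : ℝ) : ℂ) = ((ξ (n + 1) : ℝ) : ℂ) := by
    rw [hJ.pos]
    push_cast
    rfl
  apply Prod.ext
  · exact e1
  · show (((ξ n : ℝ) : ℂ) + ((η n : ℝ) : ℂ)) • deriv (fun z => S.K z u.2) u.1 +
      ((η n : ℝ) : ℂ) • deriv (fun w => S.K u.1 w) u.2 = ((η (n + 1) : ℝ) : ℂ)
    rw [e1, hJ.kick n, smul_eq_mul, smul_eq_mul]
    ring

theorem FFi_strict (n : ℤ) : ∃ Q : ℂ × ℂ →L[ℂ] ℂ × ℂ,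
    HasStrictFDerivAt (FFi S) Q (dat S Y x n) := by
  have hK := hasStrict S.Ki (S.Nb 0 S.r) (h.nbo 0 S.r) h.ok.Kihol (dat S Y x n) (h.memB n)
  exact ⟨_, (hasStrictFDerivAt_fst.sub hK).prodMk hK⟩

theorem FFi_field (n : ℤ) : ∃ Q : ℂ × ℂ →L[ℂ] ℂ × ℂ,
    HasStrictFDerivAt (FFi S) Q (dat S Y x n) ∧
    ∀ ξ η : ℤ → ℝ, S.Jac Y x ξ η → Q (cf ξ η n) = cf ξ η (n - 1) := by
  obtain ⟨Q, hQ⟩ := FFi_strict h n
  obtain ⟨P, hP, hPf⟩ := FF_strict h (n - 1)
  refine ⟨Q, hQ, ?_⟩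
  intro ξ η hJ
  have e : n - 1 + 1 = n := by ring
  have h1 : HasFDerivAt (FFi S) Q (FF S (dat S Y x (n - 1))) := by
    rw [FF_dat h, e]
    exact hQ.hasFDerivAt
  have h2 : HasFDerivAt (FFi S ∘ FF S) (Q.comp P) (dat S Y x (n - 1)) :=
    h1.comp _ hP.hasFDerivAt
  have h3 : HasFDerivAt (FFi S ∘ FF S) (ContinuousLinearMap.id ℂ (ℂ × ℂ))
      (dat S Y x (n - 1)) := by
    refine (hasFDerivAt_id _).congr_of_eventuallyEq ?_
    filter_upwards [contA h (n - 1)] with z hz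
    exact FFi_FF h hz
  have h4 := h2.unique h3
  have h5 := hPf ξ η hJ
  rw [e] at h5
  rw [← h5, ← ContinuousLinearMap.comp_apply, h4]
  rfl

theorem FF_diff (n : ℤ) : ∀ᶠ z in 𝓝 (dat S Y x n), DifferentiableAt ℂ (FF S) z := by
  filter_upwards [contA h n] with z hz
  have hK : DifferentiableAt ℂ (fun z : ℂ × ℂ => S.K z.1 z.2) (z.1 + z.2, z.2) :=
    h.ok.Khol.differentiableAt ((h.nbo 1 S.r).mem_nhds hz)
  have h1 : DifferentiableAt ℂ (fun z : ℂ × ℂ => ((z.1 + z.2, z.2) : ℂ × ℂ)) z := by fun_prop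
  have h2 : DifferentiableAt ℂ
      ((fun z : ℂ × ℂ => S.K z.1 z.2) ∘ (fun z : ℂ × ℂ => ((z.1 + z.2, z.2) : ℂ × ℂ))) z :=
    DifferentiableAt.comp z hK h1
  have h3 : DifferentiableAt ℂ (fun z : ℂ × ℂ => z.1 + z.2) z := by fun_prop
  exact h3.prodMk h2

theorem FFi_diff (n : ℤ) : ∀ᶠ z in 𝓝 (dat S Y x n), DifferentiableAt ℂ (FFi S) z := by
  filter_upwards [contB h n] with z hz
  have hK : DifferentiableAt ℂ (fun z : ℂ × ℂ => S.Ki z.1 z.2) z :=
    h.ok.Kihol.differentiableAt ((h.nbo 0 S.r).mem_nhds hz)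
  have h3 : DifferentiableAt ℂ (fun z : ℂ × ℂ => z.1 - S.Ki z.1 z.2) z :=
    DifferentiableAt.sub (by fun_prop) hK
  exact h3.prodMk hK

omit h in
theorem conj_of_im {z : ℂ} (hz : z.im = 0) : (starRingEnd ℂ) z = z :=
  Complex.conj_eq_iff_im.2 hz

theorem FF_real (n : ℤ) : ∀ᶠ z in 𝓝 (dat S Y x n), (z.1.im = 0 ∧ z.2.im = 0) →
    ((FF S z).1.im = 0 ∧ (FF S z).2.im = 0) := by
  filter_upwards [contA h n] with z hz hr
  have e1 : (z.1 + z.2).im = 0 := by rw [Complex.add_im, hr.1, hr.2, add_zero]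
  refine ⟨e1, ?_⟩
  have h1 := h.ok.Ksym _ hz
  rw [conj_of_im e1, conj_of_im hr.2] at h1
  exact Complex.conj_eq_iff_im.1 h1.symm

theorem FFi_real (n : ℤ) : ∀ᶠ z in 𝓝 (dat S Y x n), (z.1.im = 0 ∧ z.2.im = 0) →
    ((FFi S z).1.im = 0 ∧ (FFi S z).2.im = 0) := by
  filter_upwards [contB h n] with z hz hr
  have h1 := h.ok.Kisym _ hz
  rw [conj_of_im hr.1, conj_of_im hr.2] at h1
  have h2 : (S.Ki z.1 z.2).im = 0 := Complex.conj_eq_iff_im.1 h1.symm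
  refine ⟨?_, h2⟩
  show (z.1 - S.Ki z.1 z.2).im = 0
  rw [Complex.sub_im, hr.1, h2, sub_zero]

/-! ### Jacobi fields -/

/-- Shifted and scaled Jacobi fields. -/
theorem jac_shift {ξ η : ℤ → ℝ} (hJ : S.Jac Y x ξ η) (n : ℤ) (a : ℝ) :
    S.Jac Y (S.orb Y x n) (fun k => a * ξ (n + k)) (fun k => a * η (n + k)) := by
  have hv : ∀ k : ℤ, S.vel Y (S.orb Y x n) k = S.vel Y x (n + k) := by
    intro k
    show S.V Y (S.orb Y (S.orb Y x n) k) 0 = S.V Y (S.orb Y x (n + k)) 0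
    rw [h.shift]
  refine ⟨?_, ?_⟩
  · intro k
    have := hJ.pos (n + k)
    show a * ξ (n + (k + 1)) = a * ξ (n + k) + a * η (n + k)
    rw [← add_assoc, this]
    ring
  · intro k
    have := hJ.kick (n + k)
    show ((a * η (n + (k + 1)) : ℝ) : ℂ) = _ * ((a * ξ (n + (k + 1)) : ℝ) : ℂ) +
      _ * ((a * η (n + k) : ℝ) : ℂ)
    rw [hv, h.shift, ← add_assoc]
    push_cast
    rw [this]
    ring

theorem disc_shift {ξ η : ℤ → ℝ} (hJ : S.Jac Y x ξ η) (n : ℤ) (a : ℝ) (h0 : a * ξ n ≤ 0)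
    (h1 : 0 ≤ a * (ξ n + η n)) (h2 : ¬ (a * ξ n = 0 ∧ a * (ξ n + η n) = 0)) :
    (∀ m : ℤ, n + 2 ≤ m → 0 < a * ξ m) ∧ (∀ m : ℤ, m ≤ n - 1 → a * ξ m < 0) := by
  have e0 : a * ξ (n + 0) = a * ξ n := by rw [add_zero]
  have e1 : a * ξ (n + 1) = a * (ξ n + η n) := by rw [hJ.pos]
  obtain ⟨h3, h4⟩ := h.ok.disc Y h.hY _ _ _ (jac_shift h hJ n a)
    (by show a * ξ (n + 0) ≤ 0; rw [e0]; exact h0)
    (by show 0 ≤ a * ξ (n + 1); rw [e1]; exact h1)
    (by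
      show ¬ (a * ξ (n + 0) = 0 ∧ a * ξ (n + 1) = 0)
      rw [e0, e1]
      exact h2)
  constructor
  · intro m hm
    have := h3 (m - n) (by linarith)
    have e : n + (m - n) = m := by ring
    rw [e] at this
    exact this
  · intro m hm
    have := h4 (m - n) (by linarith)
    have e : n + (m - n) = m := by ring
    rw [e] at this
    exact this

/-- Two zeros at distance at least two force the field to vanish. -/
theorem jac_zero {ξ η : ℤ → ℝ} (hJ : S.Jac Y x ξ η) {T : ℤ} (hT : 1 ≤ T) (h1 : ξ T = 0)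
    (h2 : ξ (-T) = 0) : η (-T) = 0 := by
  rcases lt_trichotomy (η (-T)) 0 with h3 | h3 | h3
  · have := (disc_shift h hJ (-T) (-1) (by rw [h2]; simp) (by rw [h2]; linarith)
      (by rw [h2]; intro h4; linarith [h4.2])).1 T (by linarith)
    rw [h1] at this
    simp at this
  · exact h3
  · have := (disc_shift h hJ (-T) 1 (by rw [h2]; simp) (by rw [h2]; linarith)
      (by rw [h2]; intro h4; linarith [h4.2])).1 T (by linarith)
    rw [h1] at this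
    simp at this

omit h in
theorem jac_zero' {ξ η : ℤ → ℝ} (hJ : S.Jac Y x ξ η) {T : ℤ} (h1 : ξ (-T) = 0)
    (h2 : η (-T) = 0) {n : ℤ} (hn : -T ≤ n) : ξ n = 0 ∧ η n = 0 := by
  obtain ⟨k, rfl⟩ := Int.le.dest hn
  clear hn
  induction k with
  | zero => simpa using ⟨h1, h2⟩
  | succ k ih =>
    have e : -T + ((k + 1 : ℕ) : ℤ) = (-T + (k : ℤ)) + 1 := by push_cast; ring
    rw [e]
    have h3 : ξ (-T + (k : ℤ) + 1) = 0 := by rw [hJ.pos, ih.1, ih.2, add_zero]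
    refine ⟨h3, ?_⟩
    have h4 := hJ.kick (-T + (k : ℤ))
    rw [h3, ih.2] at h4
    simpa using h4

/-! ### The derivatives of the iterates -/

/-- `FF^[k]` at `dat n`. -/
theorem itF (k : ℕ) (n : ℤ) : ∃ D : ℂ × ℂ →L[ℂ] ℂ × ℂ,
    HasStrictFDerivAt ((FF S)^[k]) D (dat S Y x n) ∧ (FF S)^[k] (dat S Y x n) = dat S Y x (n + k) ∧
    ∀ ξ η : ℤ → ℝ, S.Jac Y x ξ η → D (cf ξ η n) = cf ξ η (n + k) := by
  choose P hP hPf using FF_strict h
  obtain ⟨D, h1, h2, h3⟩ := iter_strict (FF S) (dat S Y x) P hP (FF_dat h) k n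
  exact ⟨D, h1, h2, fun ξ η hJ => h3 (cf ξ η) (fun m => hPf m ξ η hJ)⟩

/-- `FFi^[k]` at `dat n`. -/
theorem itFi (k : ℕ) (n : ℤ) : ∃ D : ℂ × ℂ →L[ℂ] ℂ × ℂ,
    HasStrictFDerivAt ((FFi S)^[k]) D (dat S Y x n) ∧
    (FFi S)^[k] (dat S Y x n) = dat S Y x (n - k) ∧
    ∀ ξ η : ℤ → ℝ, S.Jac Y x ξ η → D (cf ξ η n) = cf ξ η (n - k) := by
  choose Q hQ hQf using FFi_field h
  have ho : ∀ m : ℤ, FFi S (dat S Y x (-m)) = dat S Y x (-(m + 1)) := by
    intro m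
    have := FFi_dat h (-(m + 1))
    rwa [show -(m + 1) + 1 = -m by ring] at this
  obtain ⟨D, h1, h2, h3⟩ := iter_strict (FFi S) (fun m => dat S Y x (-m)) (fun m => Q (-m))
    (fun m => hQ (-m)) ho k (-n)
  have e1 : -(-n) = n := by ring
  have e2 : -(-n + (k : ℤ)) = n - k := by ring
  rw [e1] at h1
  rw [e1, e2] at h2
  refine ⟨D, h1, h2, ?_⟩
  intro ξ η hJ
  have h4 := h3 (fun m => cf ξ η (-m)) (fun m => by
    have := hQf (-m) ξ η hJ
    rw [show -(m + 1) = -m - 1 by ring]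
    exact this)
  rw [e1, e2] at h4
  exact h4

theorem itF_diff (k : ℕ) (n : ℤ) :
    ∀ᶠ z in 𝓝 (dat S Y x n), DifferentiableAt ℂ ((FF S)^[k]) z :=
  iter_diff (FF S) (dat S Y x) (fun m => ((FF_strict h m).choose_spec.1).continuousAt)
    (FF_dat h) (FF_diff h) k n

theorem itFi_diff (k : ℕ) (n : ℤ) :
    ∀ᶠ z in 𝓝 (dat S Y x n), DifferentiableAt ℂ ((FFi S)^[k]) z := by
  have ho : ∀ m : ℤ, FFi S (dat S Y x (-m)) = dat S Y x (-(m + 1)) := by
    intro m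
    have := FFi_dat h (-(m + 1))
    rwa [show -(m + 1) + 1 = -m by ring] at this
  have := iter_diff (FFi S) (fun m => dat S Y x (-m))
    (fun m => ((FFi_strict h (-m)).choose_spec).continuousAt) ho (fun m => FFi_diff h (-m)) k (-n)
  rwa [show -(-n) = n by ring] at this

theorem itF_real (k : ℕ) (n : ℤ) : ∀ᶠ z in 𝓝 (dat S Y x n), (z.1.im = 0 ∧ z.2.im = 0) →
    (((FF S)^[k] z).1.im = 0 ∧ ((FF S)^[k] z).2.im = 0) :=
  iter_inv (FF S) (dat S Y x) (fun m => ((FF_strict h m).choose_spec.1).continuousAt)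
    (FF_dat h) (fun z => z.1.im = 0 ∧ z.2.im = 0) (FF_real h) k n

theorem itFi_real (k : ℕ) (n : ℤ) : ∀ᶠ z in 𝓝 (dat S Y x n), (z.1.im = 0 ∧ z.2.im = 0) →
    (((FFi S)^[k] z).1.im = 0 ∧ ((FFi S)^[k] z).2.im = 0) := by
  have ho : ∀ m : ℤ, FFi S (dat S Y x (-m)) = dat S Y x (-(m + 1)) := by
    intro m
    have := FFi_dat h (-(m + 1))
    rwa [show -(m + 1) + 1 = -m by ring] at this
  have := iter_inv (FFi S) (fun m => dat S Y x (-m))
    (fun m => ((FFi_strict h (-m)).choose_spec).continuousAt) ho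
    (fun z => z.1.im = 0 ∧ z.2.im = 0) (fun m => FFi_real h (-m)) k (-n)
  rwa [show -(-n) = n by ring] at this

end

/-! ### The local functions -/

/-- position at the time `T` -/
noncomputable def Ap (S : Sys) (T n : ℤ) (z : ℂ × ℂ) : ℂ := ((FF S)^[(T - n).toNat] z).1

/-- position at the time `-T` -/
noncomputable def Am (S : Sys) (T n : ℤ) (z : ℂ × ℂ) : ℂ := ((FFi S)^[(n + T).toNat] z).1

/-- the conditions for one index -/
structure Pn (S : Sys) (Y x : ℝ) (T n : ℤ) (R c : ℝ) : Prop where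
  holp : DifferentiableOn ℂ (Ap S T n) (ball (dat S Y x n) R)
  holm : DifferentiableOn ℂ (Am S T n) (ball (dat S Y x n) R)
  holF : DifferentiableOn ℂ (FF S) (ball (dat S Y x n) R)
  holFi : DifferentiableOn ℂ (FFi S) (ball (dat S Y x n) R)
  inv : ∀ z ∈ ball (dat S Y x n) R, FFi S (FF S z) = z ∧ FF S (FFi S z) = z
  anti : ∀ z ∈ ball (dat S Y x n) R, c * ‖z - dat S Y x n‖ ≤
    max ‖Ap S T n z - (S.orb Y x T : ℝ)‖ ‖Am S T n z - (S.orb Y x (-T) : ℝ)‖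
  lip : ∀ z ∈ ball (dat S Y x n) R, c * max ‖Ap S T n z - (S.orb Y x T : ℝ)‖
    ‖Am S T n z - (S.orb Y x (-T) : ℝ)‖ ≤ ‖z - dat S Y x n‖
  sgnp : ∀ (q s : ℝ) (v : ℂ), s ∈ Icc (0:ℝ) 1 → 0 < v.im →
    ((q : ℂ) - s * v, v) ∈ ball (dat S Y x n) R → ¬ (n = T - 1 ∧ s = 1) →
    0 < (Ap S T n ((q : ℂ) - s * v, v)).im
  sgnm : ∀ (q s : ℝ) (v : ℂ), s ∈ Icc (0:ℝ) 1 → 0 < v.im →
    ((q : ℂ) - s * v, v) ∈ ball (dat S Y x n) R → ¬ (n = -T ∧ s = 0) →
    (Am S T n ((q : ℂ) - s * v, v)).im < 0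

theorem Pn_mono (S : Sys) (Y x : ℝ) (T : ℤ) : ∀ (n : ℤ) (R R' c c' : ℝ), Pn S Y x T n R c →
    R' ≤ R → c' ≤ c → 0 < R' → 0 < c' → Pn S Y x T n R' c' := by
  intro n R R' c c' h hR hc _ _
  have hsub : ball (dat S Y x n) R' ⊆ ball (dat S Y x n) R := ball_subset_ball hR
  exact
    { holp := h.holp.mono hsub
      holm := h.holm.mono hsub
      holF := h.holF.mono hsub
      holFi := h.holFi.mono hsub
      inv := fun z hz => h.inv z (hsub hz)
      anti := fun z hz => (mul_le_mul_of_nonneg_right hc (norm_nonneg _)).trans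
        (h.anti z (hsub hz))
      lip := fun z hz => (mul_le_mul_of_nonneg_right hc
        (le_max_of_le_left (norm_nonneg _))).trans (h.lip z (hsub hz))
      sgnp := fun q s v hs hv hz => h.sgnp q s v hs hv (hsub hz)
      sgnm := fun q s v hs hv hz => h.sgnm q s v hs hv (hsub hz) }

/-- An affine function of `s` is bounded below on `[0, 1]` by its values at the ends. -/
theorem affine_min {L : ℂ × ℂ →L[ℂ] ℂ} (h0 : 0 < (L (0, 1)).re) (h1 : 0 < (L (-1, 1)).re) :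
    ∃ a₀ : ℝ, 0 < a₀ ∧ ∀ s ∈ Icc (0:ℝ) 1, a₀ ≤ (L (-(s : ℂ), 1)).re := by
  refine ⟨min (L (0, 1)).re (L (-1, 1)).re, lt_min h0 h1, ?_⟩
  intro s hs
  have e : ((-(s : ℂ), 1) : ℂ × ℂ) = ((1 - s : ℝ) : ℂ) • ((0, 1) : ℂ × ℂ) +
      ((s : ℝ) : ℂ) • ((-1, 1) : ℂ × ℂ) := by
    apply Prod.ext
    · simp
    · simp
  rw [e, map_add, map_smul, map_smul, Complex.add_re, smul_eq_mul, smul_eq_mul,
    Complex.re_ofReal_mul, Complex.re_ofReal_mul]
  have h2 := min_le_left (L (0, 1)).re (L (-1, 1)).re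
  have h3 := min_le_right (L (0, 1)).re (L (-1, 1)).re
  have h4 := mul_le_mul_of_nonneg_left h2 (sub_nonneg.2 hs.2)
  have h5 := mul_le_mul_of_nonneg_left h3 hs.1
  nlinarith

theorem exists_Pn (hJ : GJac) {S : Sys} {Y x : ℝ} (h : Hyp S Y x) {T : ℤ} (hT : 1 ≤ T) (n : ℤ)
    (hn1 : -T ≤ n) (hn2 : n < T) : ∃ R c : ℝ, 0 < R ∧ 0 < c ∧ Pn S Y x T n R c := by
  obtain ⟨hJe, -⟩ := hJ S h.ok Y h.hY x
  set kp := (T - n).toNat with hkp
  set km := (n + T).toNat with hkm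
  have ekp : n + (kp : ℤ) = T := by
    rw [hkp, Int.toNat_of_nonneg (by linarith)]; ring
  have ekm : n - (km : ℤ) = -T := by
    rw [hkm, Int.toNat_of_nonneg (by linarith)]; ring
  obtain ⟨Dp, hDp, vDp, fDp⟩ := itF h kp n
  obtain ⟨Dm, hDm, vDm, fDm⟩ := itFi h km n
  rw [ekp] at vDp
  rw [ekm] at vDm
  have hAp : HasStrictFDerivAt (Ap S T n) ((ContinuousLinearMap.fst ℂ ℂ ℂ).comp Dp)
      (dat S Y x n) := by
    have h1 : HasStrictFDerivAt (Prod.fst : ℂ × ℂ → ℂ) (ContinuousLinearMap.fst ℂ ℂ ℂ)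
        ((FF S)^[kp] (dat S Y x n)) := hasStrictFDerivAt_fst
    exact h1.comp (dat S Y x n) hDp
  have hAm : HasStrictFDerivAt (Am S T n) ((ContinuousLinearMap.fst ℂ ℂ ℂ).comp Dm)
      (dat S Y x n) := by
    have h1 : HasStrictFDerivAt (Prod.fst : ℂ × ℂ → ℂ) (ContinuousLinearMap.fst ℂ ℂ ℂ)
        ((FFi S)^[km] (dat S Y x n)) := hasStrictFDerivAt_fst
    exact h1.comp (dat S Y x n) hDm
  have vAp : Ap S T n (dat S Y x n) = (S.orb Y x T : ℝ) := congrArg Prod.fst vDp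
  have vAm : Am S T n (dat S Y x n) = (S.orb Y x (-T) : ℝ) := congrArg Prod.fst vDm
  have fp : ∀ ξ η : ℤ → ℝ, S.Jac Y x ξ η →
      ((ContinuousLinearMap.fst ℂ ℂ ℂ).comp Dp) (cf ξ η n) = ((ξ T : ℝ) : ℂ) := by
    intro ξ η hj
    have := fDp ξ η hj
    rw [ekp] at this
    exact congrArg Prod.fst this
  have fm : ∀ ξ η : ℤ → ℝ, S.Jac Y x ξ η →
      ((ContinuousLinearMap.fst ℂ ℂ ℂ).comp Dm) (cf ξ η n) = ((ξ (-T) : ℝ) : ℂ) := by
    intro ξ η hj
    have := fDm ξ η hj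
    rw [ekm] at this
    exact congrArg Prod.fst this
  -- injectivity
  have hinj : ∀ u : ℂ × ℂ, (((ContinuousLinearMap.fst ℂ ℂ ℂ).comp Dp).prod
      ((ContinuousLinearMap.fst ℂ ℂ ℂ).comp Dm)) u = 0 → u = 0 := by
    intro u hu
    obtain ⟨ξ₁, η₁, hj1, a1, b1⟩ := hJe n u.1.re u.2.re
    obtain ⟨ξ₂, η₂, hj2, a2, b2⟩ := hJe n u.1.im u.2.im
    have eu : u = cf ξ₁ η₁ n + I • cf ξ₂ η₂ n := by
      apply Prod.ext
      · show u.1 = ((ξ₁ n : ℝ) : ℂ) + I * ((ξ₂ n : ℝ) : ℂ)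
        rw [a1, a2, mul_comm]
        exact (Complex.re_add_im _).symm
      · show u.2 = ((η₁ n : ℝ) : ℂ) + I * ((η₂ n : ℝ) : ℂ)
        rw [b1, b2, mul_comm]
        exact (Complex.re_add_im _).symm
    have hu1 : ((ContinuousLinearMap.fst ℂ ℂ ℂ).comp Dp) u = 0 := congrArg Prod.fst hu
    have hu2 : ((ContinuousLinearMap.fst ℂ ℂ ℂ).comp Dm) u = 0 := congrArg Prod.snd hu
    rw [eu, map_add, map_smul, fp ξ₁ η₁ hj1, fp ξ₂ η₂ hj2, smul_eq_mul] at hu1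
    rw [eu, map_add, map_smul, fm ξ₁ η₁ hj1, fm ξ₂ η₂ hj2, smul_eq_mul] at hu2
    have r1 : ξ₁ T = 0 := by simpa using congrArg Complex.re hu1
    have r2 : ξ₂ T = 0 := by simpa using congrArg Complex.im hu1
    have r3 : ξ₁ (-T) = 0 := by simpa using congrArg Complex.re hu2
    have r4 : ξ₂ (-T) = 0 := by simpa using congrArg Complex.im hu2
    have z1 := jac_zero' hj1 r3 (jac_zero h hj1 hT r1 r3) hn1
    have z2 := jac_zero' hj2 r4 (jac_zero h hj2 hT r2 r4) hn1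
    rw [eu]
    apply Prod.ext
    · show ((ξ₁ n : ℝ) : ℂ) + I * ((ξ₂ n : ℝ) : ℂ) = 0
      rw [z1.1, z2.1]; simp
    · show ((η₁ n : ℝ) : ℂ) + I * ((η₂ n : ℝ) : ℂ) = 0
      rw [z1.2, z2.2]; simp
  obtain ⟨c, hc, hbil⟩ := bilip_of_inj (F := fun z => (Ap S T n z, Am S T n z))
    (hAp.hasFDerivAt.prodMk hAm.hasFDerivAt) hinj
  -- differentiability and inverses
  have d1 : ∀ᶠ z in 𝓝 (dat S Y x n), DifferentiableAt ℂ (Ap S T n) z := by
    filter_upwards [itF_diff h kp n] with z hz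
    exact differentiableAt_fst.comp z hz
  have d2 : ∀ᶠ z in 𝓝 (dat S Y x n), DifferentiableAt ℂ (Am S T n) z := by
    filter_upwards [itFi_diff h km n] with z hz
    exact differentiableAt_fst.comp z hz
  have d3 : ∀ᶠ z in 𝓝 (dat S Y x n), FFi S (FF S z) = z ∧ FF S (FFi S z) = z := by
    filter_upwards [contA h n, contB h n] with z h1 h2
    exact ⟨FFi_FF h h1, FF_FFi h h2⟩
  -- signs
  have sp : ∃ R : ℝ, 0 < R ∧ ∀ (q s : ℝ) (v : ℂ), s ∈ Icc (0:ℝ) 1 → 0 < v.im →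
      ((q : ℂ) - s * v, v) ∈ ball (dat S Y x n) R → ¬ (n = T - 1 ∧ s = 1) →
      0 < (Ap S T n ((q : ℂ) - s * v, v)).im := by
    rcases eq_or_ne n (T - 1) with hn | hn
    · refine ⟨1, one_pos, ?_⟩
      intro q s v hs hv _ hne
      have hs1 : s < 1 := lt_of_le_of_ne hs.2 (fun hs' => hne ⟨hn, hs'⟩)
      have e1 : (T - n).toNat = 1 := by rw [hn]; simp
      have e2 : Ap S T n ((q : ℂ) - s * v, v) = (q : ℂ) - s * v + v := by
        show ((FF S)^[(T - n).toNat] ((q : ℂ) - s * v, v)).1 = _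
        rw [e1]
        rfl
      rw [e2]
      have e3 : ((q : ℂ) - s * v + v).im = (1 - s) * v.im := by
        simp
        ring
      rw [e3]
      exact mul_pos (by linarith) hv
    · have hn3 : n + 2 ≤ T := by
        have : n + 1 ≤ T := hn2
        have h2 : n + 1 ≠ T := fun h3 => hn (by linarith)
        have h3 : n + 1 < T := lt_of_le_of_ne this h2
        linarith [Int.add_one_le_iff.2 h3]
      obtain ⟨ξ₁, η₁, hj1, a1, b1⟩ := hJe n 0 1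
      obtain ⟨ξ₂, η₂, hj2, a2, b2⟩ := hJe n (-1) 1
      have p1 := (disc_shift h hj1 n 1 (by rw [a1]; simp) (by rw [a1, b1]; norm_num)
        (by rw [a1, b1]; norm_num)).1 T hn3
      have p2 := (disc_shift h hj2 n 1 (by rw [a2]; norm_num) (by rw [a2, b2]; norm_num)
        (by rw [a2, b2]; norm_num)).1 T hn3
      rw [one_mul] at p1 p2
      have f1 := fp ξ₁ η₁ hj1
      have f2 := fp ξ₂ η₂ hj2
      have c1 : cf ξ₁ η₁ n = (0, 1) := by
        show (((ξ₁ n : ℝ) : ℂ), ((η₁ n : ℝ) : ℂ)) = (0, 1)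
        rw [a1, b1]; simp
      have c2 : cf ξ₂ η₂ n = (-1, 1) := by
        show (((ξ₂ n : ℝ) : ℂ), ((η₂ n : ℝ) : ℂ)) = (-1, 1)
        rw [a2, b2]; simp
      rw [c1] at f1
      rw [c2] at f2
      obtain ⟨a₀, ha, hL⟩ := affine_min (L := (ContinuousLinearMap.fst ℂ ℂ ℂ).comp Dp)
        (by rw [f1, Complex.ofReal_re]; exact p1) (by rw [f2, Complex.ofReal_re]; exact p2)
      obtain ⟨R, hR, hs⟩ := sign_of_strict (f := Ap S T n) (d := dat S Y x n) rfl hAp ha hL (by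
        filter_upwards [itF_real h kp n] with z hz hr
        exact (hz hr).1)
      exact ⟨R, hR, fun q s v h1 h2 h3 _ => hs q s v h1 h2 h3⟩
  have sm : ∃ R : ℝ, 0 < R ∧ ∀ (q s : ℝ) (v : ℂ), s ∈ Icc (0:ℝ) 1 → 0 < v.im →
      ((q : ℂ) - s * v, v) ∈ ball (dat S Y x n) R → ¬ (n = -T ∧ s = 0) →
      (Am S T n ((q : ℂ) - s * v, v)).im < 0 := by
    rcases eq_or_ne n (-T) with hn | hn
    · refine ⟨1, one_pos, ?_⟩
      intro q s v hs hv _ hne
      have hs1 : 0 < s := lt_of_le_of_ne hs.1 (fun hs' => hne ⟨hn, hs'.symm⟩)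
      have e1 : (n + T).toNat = 0 := by rw [hn]; simp
      have e2 : Am S T n ((q : ℂ) - s * v, v) = (q : ℂ) - s * v := by
        show ((FFi S)^[(n + T).toNat] ((q : ℂ) - s * v, v)).1 = _
        rw [e1]
        rfl
      rw [e2]
      have e3 : ((q : ℂ) - s * v).im = -(s * v.im) := by
        simp
      rw [e3]
      linarith [mul_pos hs1 hv]
    · have hn3 : -T ≤ n - 1 := by
        have h3 : -T < n := lt_of_le_of_ne hn1 (fun h4 => hn h4.symm)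
        linarith [Int.add_one_le_iff.2 h3]
      obtain ⟨ξ₁, η₁, hj1, a1, b1⟩ := hJe n 0 1
      obtain ⟨ξ₂, η₂, hj2, a2, b2⟩ := hJe n (-1) 1
      have p1 := (disc_shift h hj1 n 1 (by rw [a1]; simp) (by rw [a1, b1]; norm_num)
        (by rw [a1, b1]; norm_num)).2 (-T) hn3
      have p2 := (disc_shift h hj2 n 1 (by rw [a2]; norm_num) (by rw [a2, b2]; norm_num)
        (by rw [a2, b2]; norm_num)).2 (-T) hn3
      rw [one_mul] at p1 p2
      have f1 := fm ξ₁ η₁ hj1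
      have f2 := fm ξ₂ η₂ hj2
      have c1 : cf ξ₁ η₁ n = (0, 1) := by
        show (((ξ₁ n : ℝ) : ℂ), ((η₁ n : ℝ) : ℂ)) = (0, 1)
        rw [a1, b1]; simp
      have c2 : cf ξ₂ η₂ n = (-1, 1) := by
        show (((ξ₂ n : ℝ) : ℂ), ((η₂ n : ℝ) : ℂ)) = (-1, 1)
        rw [a2, b2]; simp
      rw [c1] at f1
      rw [c2] at f2
      obtain ⟨a₀, ha, hL⟩ := affine_min (L := -((ContinuousLinearMap.fst ℂ ℂ ℂ).comp Dm))
        (by
          rw [neg_apply, f1, Complex.neg_re, Complex.ofReal_re]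
          linarith)
        (by
          rw [neg_apply, f2, Complex.neg_re, Complex.ofReal_re]
          linarith)
      obtain ⟨R, hR, hs⟩ := sign_of_strict (f := fun z => -Am S T n z) (d := dat S Y x n) rfl
        hAm.neg ha hL (by
          filter_upwards [itFi_real h km n] with z hz hr
          show (-Am S T n z).im = 0
          rw [Complex.neg_im]
          exact neg_eq_zero.2 (hz hr).1)
      refine ⟨R, hR, fun q s v h1 h2 h3 _ => ?_⟩
      have h4 : 0 < (-Am S T n ((q : ℂ) - s * v, v)).im := hs q s v h1 h2 h3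
      rw [Complex.neg_im] at h4
      linarith
  -- assemble
  obtain ⟨R₁, hR₁, hb1⟩ := Metric.eventually_nhds_iff_ball.1
    ((hbil.and d1).and ((d2.and d3).and ((FF_diff h n).and (FFi_diff h n))))
  obtain ⟨R₂, hR₂, hb2⟩ := sp
  obtain ⟨R₃, hR₃, hb3⟩ := sm
  have s1 : ball (dat S Y x n) (min R₁ (min R₂ R₃)) ⊆ ball (dat S Y x n) R₁ :=
    ball_subset_ball (min_le_left _ _)
  have s2 : ball (dat S Y x n) (min R₁ (min R₂ R₃)) ⊆ ball (dat S Y x n) R₂ :=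
    ball_subset_ball ((min_le_right _ _).trans (min_le_left _ _))
  have s3 : ball (dat S Y x n) (min R₁ (min R₂ R₃)) ⊆ ball (dat S Y x n) R₃ :=
    ball_subset_ball ((min_le_right _ _).trans (min_le_right _ _))
  refine ⟨min R₁ (min R₂ R₃), c, by positivity, hc, ?_⟩
  have hnorm : ∀ z : ℂ × ℂ, ‖((Ap S T n z, Am S T n z) : ℂ × ℂ) -
      (Ap S T n (dat S Y x n), Am S T n (dat S Y x n))‖ =
      max ‖Ap S T n z - (S.orb Y x T : ℝ)‖ ‖Am S T n z - (S.orb Y x (-T) : ℝ)‖ := by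
    intro z
    rw [vAp, vAm]
    rfl
  exact
    { holp := fun z hz => (hb1 z (s1 hz)).1.2.differentiableWithinAt
      holm := fun z hz => (hb1 z (s1 hz)).2.1.1.differentiableWithinAt
      holF := fun z hz => (hb1 z (s1 hz)).2.2.1.differentiableWithinAt
      holFi := fun z hz => (hb1 z (s1 hz)).2.2.2.differentiableWithinAt
      inv := fun z hz => (hb1 z (s1 hz)).2.1.2
      anti := fun z hz => by
        rw [← hnorm]
        exact (hb1 z (s1 hz)).1.1.1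
      lip := fun z hz => by
        rw [← hnorm]
        exact (hb1 z (s1 hz)).1.1.2
      sgnp := fun q s v h1 h2 h3 => hb2 q s v h1 h2 (s2 h3)
      sgnm := fun q s v h1 h2 h3 => hb3 q s v h1 h2 (s3 h3) }

/-- Packet FT-LOC. -/
theorem ft_loc (hG : GReg) (hJ : GJac) : GLoc := by
  intro S hS Y hY x T hT
  have h := mkHyp hG hS hY x
  obtain ⟨R, c, hR, hc, hP⟩ := exists_unif (Finset.Ico (-T) T) (Pn S Y x T) (Pn_mono S Y x T)
    (fun n hn => exists_Pn hJ h hT n (Finset.mem_Ico.1 hn).1 (Finset.mem_Ico.1 hn).2)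
  have hP' : ∀ n : ℤ, -T ≤ n → n < T → Pn S Y x T n R c :=
    fun n h1 h2 => hP n (Finset.mem_Ico.2 ⟨h1, h2⟩)
  refine ⟨R, c, Ap S T, Am S T, ?_⟩
  exact
    { hR := hR
      hc := hc
      holp := fun n h1 h2 => (hP' n h1 h2).holp
      holm := fun n h1 h2 => (hP' n h1 h2).holm
      holF := fun n h1 h2 => (hP' n h1 h2).holF
      holFi := fun n h1 h2 => (hP' n h1 h2).holFi
      inv := fun n h1 h2 => (hP' n h1 h2).inv
      Fdat := fun n => FF_dat h n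
      top := by
        intro z _
        have e1 : (T - (T - 1)).toNat = 1 := by
          rw [show T - (T - 1) = 1 by ring]; rfl
        show ((FF S)^[(T - (T - 1)).toNat] z).1 = z.1 + z.2
        rw [e1]
        rfl
      bot := by
        intro z _
        have e1 : (-T + T).toNat = 0 := by
          rw [show -T + T = 0 by ring]; rfl
        show ((FFi S)^[(-T + T).toNat] z).1 = z.1
        rw [e1]
        rfl
      step := by
        intro n h1 h2 z hz _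
        constructor
        · have e1 : (T - n).toNat = (T - (n + 1)).toNat + 1 := by
            have : T - n = (T - (n + 1)) + 1 := by ring
            rw [this, Int.toNat_add (by linarith) (by norm_num)]
            rfl
          show ((FF S)^[(T - (n + 1)).toNat] (FF S z)).1 = ((FF S)^[(T - n).toNat] z).1
          rw [e1, Function.iterate_succ_apply]
        · have e1 : (n + 1 + T).toNat = (n + T).toNat + 1 := by
            have : n + 1 + T = (n + T) + 1 := by ring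
            rw [this, Int.toNat_add (by linarith) (by norm_num)]
            rfl
          show ((FFi S)^[(n + 1 + T).toNat] (FF S z)).1 = ((FFi S)^[(n + T).toNat] z).1
          rw [e1, Function.iterate_succ_apply, ((hP' n h1 (by linarith)).inv z hz).1]
      anti := fun n h1 h2 => (hP' n h1 h2).anti
      lip := fun n h1 h2 => (hP' n h1 h2).lip
      sgnp := fun n h1 h2 => (hP' n h1 h2).sgnp
      sgnm := fun n h1 h2 => (hP' n h1 h2).sgnm }

end Pool.Agent.Helper50.FT
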