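import Pool.Agent.Helper76.FT.GoalsG
import Pool.Agent.Helper40.TWOsg

/-!
# MP_39e2b7_an, packet FT-LOC, first part: generic lemmas
-/

set_option autoImplicit false

namespace Pool.Agent.Helper50.FT

open Complex Set Filter Topology Metric

/-! ### Strict differentiability of holomorphic functions of two variables -/

theorem hasStrict (f : ℂ → ℂ → ℂ) (U : Set (ℂ × ℂ)) (hU : IsOpen U)
    (hf : DifferentiableOn ℂ (fun z : ℂ × ℂ => f z.1 z.2) U) (u : ℂ × ℂ) (hu : u ∈ U) :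
    HasStrictFDerivAt (fun z : ℂ × ℂ => f z.1 z.2)
      ((ContinuousLinearMap.toSpanSingleton ℂ (deriv (fun z => f z u.2) u.1)).coprod
        (ContinuousLinearMap.toSpanSingleton ℂ (deriv (fun w => f u.1 w) u.2))) u := by
  have hnh : ∀ᶠ v in 𝓝 u, v ∈ U := hU.mem_nhds hu
  have h1 : ∀ p ∈ U, DifferentiableAt ℂ (fun z => f z p.2) p.1 := by
    intro p hp
    have h3 : DifferentiableAt ℂ (fun z : ℂ × ℂ => f z.1 z.2) (p.1, p.2) :=
      hf.differentiableAt (hU.mem_nhds hp)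
    have h4 : DifferentiableAt ℂ (fun z : ℂ => ((z, p.2) : ℂ × ℂ)) p.1 := by fun_prop
    exact DifferentiableAt.comp p.1 h3 h4
  have h2 : ∀ p ∈ U, DifferentiableAt ℂ (fun w => f p.1 w) p.2 := by
    intro p hp
    have h3 : DifferentiableAt ℂ (fun z : ℂ × ℂ => f z.1 z.2) (p.1, p.2) :=
      hf.differentiableAt (hU.mem_nhds hp)
    have h4 : DifferentiableAt ℂ (fun z : ℂ => ((p.1, z) : ℂ × ℂ)) p.2 := by fun_prop
    have h5 : DifferentiableAt ℂ
        ((fun z : ℂ × ℂ => f z.1 z.2) ∘ (fun z : ℂ => ((p.1, z) : ℂ × ℂ))) p.2 :=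
      DifferentiableAt.comp p.2 h3 h4
    exact h5
  have c1 := Pool.Agent.Helper40.TWOsg.partial_continuousAt (fun z : ℂ × ℂ => f z.1 z.2) U hU
    hf.continuousOn h1 u hu
  have c2 : ContinuousAt (fun v : ℂ × ℂ => deriv (fun z => f v.1 z) v.2) u := by
    have hsw : Continuous (Prod.swap : ℂ × ℂ → ℂ × ℂ) := continuous_swap
    have hc := Pool.Agent.Helper40.TWOsg.partial_continuousAt
      (fun p : ℂ × ℂ => f p.swap.1 p.swap.2) (Prod.swap ⁻¹' U) (hU.preimage hsw)
      (hf.continuousOn.comp hsw.continuousOn (fun p hp => hp))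
      (fun p hp => by simpa using h2 p.swap hp) u.swap (by simpa using hu)
    have hc' : ContinuousAt (fun v : ℂ × ℂ => deriv (fun z => f v.2 z) v.1)
      (Prod.swap u) := hc
    have := ContinuousAt.comp (f := (Prod.swap : ℂ × ℂ → ℂ × ℂ)) (x := u) hc' hsw.continuousAt
    simpa [Function.comp_def] using this
  have key := hasStrictFDerivAt_uncurry_coprod (𝕜 := ℂ) (u := u) (f := f)
    (f₁ := fun z w => ContinuousLinearMap.toSpanSingleton ℂ (deriv (fun z' => f z' w) z))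
    (f₂ := fun z w => ContinuousLinearMap.toSpanSingleton ℂ (deriv (fun w' => f z w') w))
    (by
      filter_upwards [hnh] with v hv
      exact (h1 v hv).hasDerivAt.hasFDerivAt)
    (by
      filter_upwards [hnh] with v hv
      exact (h2 v hv).hasDerivAt.hasFDerivAt)
    (by
      have : Continuous fun x : ℂ => ContinuousLinearMap.toSpanSingleton ℂ x :=
        (ContinuousLinearMap.toSpanSingletonCLE (𝕜 := ℂ) (E := ℂ)).continuous
      exact this.continuousAt.comp c1)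
    (by
      have : Continuous fun x : ℂ => ContinuousLinearMap.toSpanSingleton ℂ x :=
        (ContinuousLinearMap.toSpanSingletonCLE (𝕜 := ℂ) (E := ℂ)).continuous
      exact this.continuousAt.comp c2)
  exact key

/-! ### Iterates along an orbit -/

section iter

variable {E : Type*} [NormedAddCommGroup E] [NormedSpace ℂ E]

theorem iter_strict (F : E → E) (o : ℤ → E) (P : ℤ → E →L[ℂ] E)
    (hF : ∀ n, HasStrictFDerivAt F (P n) (o n)) (ho : ∀ n, F (o n) = o (n + 1)) (k : ℕ) :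
    ∀ n : ℤ, ∃ D : E →L[ℂ] E, HasStrictFDerivAt (F^[k]) D (o n) ∧
      F^[k] (o n) = o (n + k) ∧
      ∀ X : ℤ → E, (∀ m, P m (X m) = X (m + 1)) → D (X n) = X (n + k) := by
  induction k with
  | zero =>
    intro n
    refine ⟨ContinuousLinearMap.id ℂ E, ?_, by simp, fun X _ => by simp⟩
    rw [Function.iterate_zero]
    exact hasStrictFDerivAt_id _
  | succ k ih =>
    intro n
    obtain ⟨D, hD, hval, hX⟩ := ih (n + 1)
    have e1 : n + 1 + (k : ℤ) = n + ((k + 1 : ℕ) : ℤ) := by push_cast; ring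
    refine ⟨D.comp (P n), ?_, ?_, ?_⟩
    · rw [Function.iterate_succ]
      have hD' : HasStrictFDerivAt (F^[k]) D (F (o n)) := by
        rw [ho]
        exact hD
      exact hD'.comp (o n) (hF n)
    · rw [Function.iterate_succ_apply, ho, hval, e1]
    · intro X h
      rw [ContinuousLinearMap.comp_apply, h, hX X h, e1]

theorem iter_diff (F : E → E) (o : ℤ → E) (hc : ∀ n, ContinuousAt F (o n))
    (ho : ∀ n, F (o n) = o (n + 1)) (hd : ∀ n, ∀ᶠ z in 𝓝 (o n), DifferentiableAt ℂ F z)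
    (k : ℕ) : ∀ n : ℤ, ∀ᶠ z in 𝓝 (o n), DifferentiableAt ℂ (F^[k]) z := by
  induction k with
  | zero =>
    intro n
    filter_upwards with z
    rw [Function.iterate_zero]
    exact differentiableAt_id
  | succ k ih =>
    intro n
    have h1 : Tendsto F (𝓝 (o n)) (𝓝 (o (n + 1))) := by
      rw [← ho]
      exact hc n
    filter_upwards [hd n, h1.eventually (ih (n + 1))] with z a b
    rw [Function.iterate_succ]
    exact b.comp z a

omit [NormedSpace ℂ E] in
theorem iter_inv (F : E → E) (o : ℤ → E) (hc : ∀ n, ContinuousAt F (o n))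
    (ho : ∀ n, F (o n) = o (n + 1)) (Rl : E → Prop)
    (hr : ∀ n, ∀ᶠ z in 𝓝 (o n), Rl z → Rl (F z))
    (k : ℕ) : ∀ n : ℤ, ∀ᶠ z in 𝓝 (o n), Rl z → Rl (F^[k] z) := by
  induction k with
  | zero =>
    intro n
    filter_upwards with z hz
    exact hz
  | succ k ih =>
    intro n
    have h1 : Tendsto F (𝓝 (o n)) (𝓝 (o (n + 1))) := by
      rw [← ho]
      exact hc n
    filter_upwards [hr n, h1.eventually (ih (n + 1))] with z a b hz
    rw [Function.iterate_succ_apply]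
    exact b (a hz)

end iter

/-! ### Bounds from the derivative -/

theorem bilip_of_inj {F : ℂ × ℂ → ℂ × ℂ} {L : ℂ × ℂ →L[ℂ] ℂ × ℂ} {d : ℂ × ℂ}
    (hF : HasFDerivAt F L d) (hL : ∀ x, L x = 0 → x = 0) :
    ∃ c : ℝ, 0 < c ∧ ∀ᶠ z in 𝓝 d, c * ‖z - d‖ ≤ ‖F z - F d‖ ∧ c * ‖F z - F d‖ ≤ ‖z - d‖ := by
  obtain ⟨K, hK, hanti⟩ := LinearMap.exists_antilipschitzWith (L : ℂ × ℂ →ₗ[ℂ] ℂ × ℂ)
    (LinearMap.ker_eq_bot'.2 hL)
  have hK' : (0 : ℝ) < K := hK
  have hb : ∀ x, ‖x‖ ≤ K * ‖L x‖ := by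
    intro x
    have h := hanti.le_mul_dist x 0
    rw [map_zero, dist_zero_right, dist_zero_right] at h
    exact h
  have ho := hF.isLittleO.def (show 0 < 1 / (2 * (K : ℝ)) by positivity)
  have hden : 0 < ‖L‖ + 1 / (2 * (K : ℝ)) := by positivity
  refine ⟨min (1 / (2 * (K : ℝ))) (1 / (‖L‖ + 1 / (2 * (K : ℝ)))), by positivity, ?_⟩
  filter_upwards [ho] with z hz
  have h1 := hb (z - d)
  have h2 : ‖L (z - d)‖ ≤ ‖F z - F d‖ + 1 / (2 * (K : ℝ)) * ‖z - d‖ := by
    have e : L (z - d) = (F z - F d) - (F z - F d - L (z - d)) := by abel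
    rw [e]
    exact (norm_sub_le _ _).trans (add_le_add le_rfl hz)
  have h3 : ‖F z - F d‖ ≤ (‖L‖ + 1 / (2 * (K : ℝ))) * ‖z - d‖ := by
    have e : F z - F d = (F z - F d - L (z - d)) + L (z - d) := by abel
    rw [e, add_mul, add_comm (‖L‖ * ‖z - d‖)]
    exact (norm_add_le _ _).trans (add_le_add hz (L.le_opNorm _))
  constructor
  · refine (mul_le_mul_of_nonneg_right (min_le_left _ _) (norm_nonneg _)).trans ?_
    have h4 : ‖z - d‖ ≤ K * ‖F z - F d‖ + 1 / 2 * ‖z - d‖ := by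
      calc ‖z - d‖ ≤ K * ‖L (z - d)‖ := h1
        _ ≤ K * (‖F z - F d‖ + 1 / (2 * (K : ℝ)) * ‖z - d‖) :=
          mul_le_mul_of_nonneg_left h2 hK'.le
        _ = K * ‖F z - F d‖ + 1 / 2 * ‖z - d‖ := by field_simp
    rw [div_mul_eq_mul_div, one_mul, div_le_iff₀ (by positivity)]
    linarith
  · refine (mul_le_mul_of_nonneg_right (min_le_right _ _) (norm_nonneg _)).trans ?_
    rw [div_mul_eq_mul_div, one_mul, div_le_iff₀ hden]
    linarith

/-- A function that is real on real points and whose derivative in the directions `(-s, 1)` has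
positive real part has positive imaginary part at `(q - s v, v)`. -/
theorem sign_of_strict {f : ℂ × ℂ → ℂ} {L : ℂ × ℂ →L[ℂ] ℂ} {d : ℂ × ℂ} {d₁ d₂ : ℝ}
    (hd : d = ((d₁ : ℂ), (d₂ : ℂ))) (hf : HasStrictFDerivAt f L d)
    {a₀ : ℝ} (ha : 0 < a₀) (hL : ∀ s ∈ Icc (0:ℝ) 1, a₀ ≤ (L (-(s : ℂ), 1)).re)
    (hreal : ∀ᶠ z in 𝓝 d, (z.1.im = 0 ∧ z.2.im = 0) → (f z).im = 0) :
    ∃ R : ℝ, 0 < R ∧ ∀ (q s : ℝ) (v : ℂ), s ∈ Icc (0:ℝ) 1 → 0 < v.im →
      ((q : ℂ) - s * v, v) ∈ ball d R → 0 < (f ((q : ℂ) - s * v, v)).im := by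
  have h1 := hf.isLittleO.def (show 0 < a₀ / 2 by positivity)
  rw [nhds_prod_eq, eventually_prod_iff] at h1
  obtain ⟨pa, hpa, pb, hpb, h2⟩ := h1
  obtain ⟨R, hR, hball⟩ := Metric.eventually_nhds_iff_ball.1 ((hpa.and hpb).and hreal)
  refine ⟨R, hR, ?_⟩
  intro q s v hs hv hz
  set z : ℂ × ℂ := ((q : ℂ) - s * v, v) with hzdef
  set z' : ℂ × ℂ := (((q - s * v.re : ℝ) : ℂ), ((v.re : ℝ) : ℂ)) with hz'def
  have hz' : z' ∈ ball d R := by
    rw [mem_ball, hd, Prod.dist_eq] at hz ⊢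
    have hz1 := lt_of_le_of_lt (le_max_left _ _) hz
    have hz2 := lt_of_le_of_lt (le_max_right _ _) hz
    refine max_lt ?_ ?_
    · refine lt_of_le_of_lt ?_ hz1
      rw [dist_eq_norm, dist_eq_norm]
      show ‖((q - s * v.re : ℝ) : ℂ) - (d₁ : ℂ)‖ ≤ ‖(q : ℂ) - s * v - (d₁ : ℂ)‖
      rw [← Complex.ofReal_sub, Complex.norm_real, Real.norm_eq_abs]
      have h5 := Complex.abs_re_le_norm ((q : ℂ) - s * v - (d₁ : ℂ))
      simpa using h5
    · refine lt_of_le_of_lt ?_ hz2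
      rw [dist_eq_norm, dist_eq_norm]
      show ‖((v.re : ℝ) : ℂ) - (d₂ : ℂ)‖ ≤ ‖v - (d₂ : ℂ)‖
      rw [← Complex.ofReal_sub, Complex.norm_real, Real.norm_eq_abs]
      have h5 := Complex.abs_re_le_norm (v - (d₂ : ℂ))
      simpa using h5
  have hb := h2 (hball z hz).1.1 (hball z' hz').1.2
  have hr := (hball z' hz').2 ⟨Complex.ofReal_im _, Complex.ofReal_im _⟩
  have e1 : z - z' = ((v.im : ℂ) * I) • ((-(s : ℂ), 1) : ℂ × ℂ) := by
    apply Prod.ext
    · show (q : ℂ) - s * v - ((q - s * v.re : ℝ) : ℂ) = ((v.im : ℂ) * I) * (-(s : ℂ))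
      push_cast
      have := Complex.re_add_im v
      linear_combination (s : ℂ) * this
    · show v - ((v.re : ℝ) : ℂ) = ((v.im : ℂ) * I) * 1
      have := Complex.re_add_im v
      linear_combination -this
  have e2 : L (z - z') = ((v.im : ℂ) * I) * L (-(s : ℂ), 1) := by
    rw [e1, map_smul, smul_eq_mul]
  have e3 : ‖z - z'‖ ≤ v.im := by
    rw [e1, norm_smul, norm_mul, Complex.norm_I, mul_one, Complex.norm_real,
      Real.norm_of_nonneg hv.le, Prod.norm_def]
    have h5 : max ‖(-(s : ℂ), (1 : ℂ)).1‖ ‖(-(s : ℂ), (1 : ℂ)).2‖ ≤ 1 := by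
      refine max_le ?_ ?_
      · show ‖-(s : ℂ)‖ ≤ 1
        rw [norm_neg, Complex.norm_real, Real.norm_of_nonneg hs.1]
        exact hs.2
      · show ‖(1 : ℂ)‖ ≤ 1
        simp
    exact (mul_le_mul_of_nonneg_left h5 hv.le).trans (by rw [mul_one])
  have e4 : (L (z - z')).im = v.im * (L (-(s : ℂ), 1)).re := by
    rw [e2, mul_assoc, Complex.im_ofReal_mul]
    congr 1
    rw [Complex.mul_im]
    simp
  have h6 : |(f z - f z' - L (z - z')).im| ≤ a₀ / 2 * v.im := by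
    refine (Complex.abs_im_le_norm _).trans ?_
    have hb' : ‖f z - f z' - L (z - z')‖ ≤ a₀ / 2 * ‖z - z'‖ := hb
    exact hb'.trans (mul_le_mul_of_nonneg_left e3 (by positivity))
  have h7 : (f z - f z' - L (z - z')).im = (f z).im - v.im * (L (-(s : ℂ), 1)).re := by
    rw [Complex.sub_im, Complex.sub_im, hr, e4, sub_zero]
  rw [h7] at h6
  have h8 := (abs_le.1 h6).1
  have h9 := mul_le_mul_of_nonneg_left (hL s hs) hv.le
  nlinarith [mul_pos hv ha]

/-- Uniform constants for finitely many indices. -/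
theorem exists_unif (s : Finset ℤ) (P : ℤ → ℝ → ℝ → Prop)
    (hmono : ∀ n R R' c c', P n R c → R' ≤ R → c' ≤ c → 0 < R' → 0 < c' → P n R' c')
    (h : ∀ n ∈ s, ∃ R c : ℝ, 0 < R ∧ 0 < c ∧ P n R c) :
    ∃ R c : ℝ, 0 < R ∧ 0 < c ∧ ∀ n ∈ s, P n R c := by
  classical
  induction s using Finset.induction_on with
  | empty => exact ⟨1, 1, one_pos, one_pos, by simp⟩
  | insert a s _ ih =>
    obtain ⟨R, c, hR, hc, h1⟩ := ih (fun n hn => h n (Finset.mem_insert_of_mem hn))
    obtain ⟨R', c', hR', hc', h2⟩ := h a (Finset.mem_insert_self a s)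
    refine ⟨min R R', min c c', by positivity, by positivity, ?_⟩
    intro n hn
    rcases Finset.mem_insert.1 hn with rfl | hn
    · exact hmono _ _ _ _ _ h2 (min_le_right _ _) (min_le_right _ _) (by positivity)
        (by positivity)
    · exact hmono _ _ _ _ _ (h1 n hn) (min_le_left _ _) (min_le_left _ _) (by positivity)
        (by positivity)

end Pool.Agent.Helper50.FT
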